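import Pool.Agent.H24.RD.Targets

set_option autoImplicit false

/-!
# MP_c65535_nt, EXT: extension of characters of elementary abelian groups
-/

namespace Pool.Agent.H89.RD

open Pool.Agent.H24.RD

theorem pf_EXT : T_EXT := by
  intro A _ p hp r s χ hker
  have : Fact p.Prime := ⟨hp⟩
  -- the additive versions
  let f : Additive A →+ (Fin r → ZMod p) :=
    { toFun := fun a i => Multiplicative.toAdd (s i (Additive.toMul a))
      map_zero' := by
        funext i
        simp
      map_add' := by
        intro a b
        funext i
        simp }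
  let c : Additive A →+ ZMod p :=
    { toFun := fun a => Multiplicative.toAdd (χ (Additive.toMul a))
      map_zero' := by simp
      map_add' := by
        intro a b
        simp }
  have hk : ∀ a, f a = 0 → c a = 0 := by
    intro a ha
    have h1 : χ (Additive.toMul a) = 1 := hker _ fun i => by
      have h2 : Multiplicative.toAdd (s i (Additive.toMul a)) = 0 := congrFun ha i
      exact Multiplicative.toAdd.injective h2
    show Multiplicative.toAdd (χ (Additive.toMul a)) = 0
    rw [h1]
    rfl
  have hk2 : ∀ a b, f a = f b → c a = c b := by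
    intro a b hab
    have h1 : f (-b + a) = 0 := by rw [map_add, map_neg, hab, neg_add_cancel]
    have h2 := hk _ h1
    rw [map_add, map_neg] at h2
    rwa [neg_add_eq_zero, eq_comm] at h2
  let W : Submodule (ZMod p) (Fin r → ZMod p) := AddSubgroup.toZModSubmodule p f.range
  have hW : ∀ w : W, ∃ a, f a = w.1 := fun w => w.2
  choose g hg using hW
  let K : W →+ ZMod p :=
    { toFun := fun w => c (g w)
      map_zero' := by
        have h1 : f (g 0) = f 0 := by rw [hg, map_zero]; rfl
        rw [hk2 _ _ h1, map_zero]
      map_add' := by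
        intro w w'
        have h1 : f (g (w + w')) = f (g w + g w') := by
          rw [hg, map_add, hg, hg]; rfl
        rw [hk2 _ _ h1, map_add] }
  obtain ⟨K', hK'⟩ := LinearMap.exists_extend (K.toZModLinearMap p)
  refine ⟨fun i => (K' (Pi.single i 1)).val, fun a => ?_⟩
  have h1 : c (Additive.ofMul a) = K' (f (Additive.ofMul a)) := by
    have hmem : f (Additive.ofMul a) ∈ W := ⟨Additive.ofMul a, rfl⟩
    have h2 : K' (f (Additive.ofMul a)) = K ⟨f (Additive.ofMul a), hmem⟩ :=
      LinearMap.congr_fun hK' ⟨f (Additive.ofMul a), hmem⟩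
    rw [h2]
    exact hk2 _ _ (hg ⟨f (Additive.ofMul a), hmem⟩).symm
  have h2 : K' (f (Additive.ofMul a)) =
      ∑ i, f (Additive.ofMul a) i * K' (Pi.single i 1) := by
    have h3 : f (Additive.ofMul a) =
        ∑ i, (f (Additive.ofMul a) i) • (Pi.single i (1 : ZMod p) : Fin r → ZMod p) := by
      funext j
      rw [Finset.sum_apply]
      simp [Pi.single_apply]
    conv_lhs => rw [h3]
    rw [map_sum]
    exact Finset.sum_congr rfl fun i _ => by rw [map_smul, smul_eq_mul]
  apply Multiplicative.toAdd.injective
  rw [toAdd_prod]
  have h4 : Multiplicative.toAdd (χ a) = c (Additive.ofMul a) := rfl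
  rw [h4, h1, h2]
  refine Finset.sum_congr rfl fun i _ => ?_
  rw [toAdd_pow, nsmul_eq_mul, ZMod.natCast_zmod_val, mul_comm]
  rfl

end Pool.Agent.H89.RD
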