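import Pool.Agent.H82.RD.Targets4
import Pool.Agent.H89.PS.LOWC

/-!
# The lower bound for the number of triples with a given first entry
-/

set_option autoImplicit false

open Pool.Agent.H38.RB Pool.Agent.H38.PS Pool.Agent.H82.RD

namespace Pool.Agent.H89.RD

lemma count_blocks (s K : ℕ) : ((Finset.Ico 1 (1 + s * K)).filter (s.Coprime)).card =
    K * s.totient := by
  induction K with
  | zero => simp
  | succ K ih =>
    have h1 : Finset.Ico 1 (1 + s * (K + 1)) = Finset.Ico 1 (1 + s * K) ∪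
        Finset.Ico (1 + s * K) (1 + s * K + s) := by
      rw [Finset.Ico_union_Ico_eq_Ico (by omega) (by omega)]
      congr 1
      ring
    rw [h1, Finset.filter_union, Finset.card_union_of_disjoint, ih,
      Nat.filter_coprime_Ico_eq_totient]
    · ring
    · exact Finset.disjoint_filter_filter (Finset.Ico_disjoint_Ico_consecutive _ _ _)

lemma le_totient (s : ℕ) : s ≤ 2 ^ s.primeFactors.card * s.totient := by
  have h1 := Nat.totient_mul_prod_primeFactors s
  have h2 : ∏ p ∈ s.primeFactors, p ≤ 2 ^ s.primeFactors.card * ∏ p ∈ s.primeFactors, (p - 1) := by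
    rw [← Finset.prod_const, ← Finset.prod_mul_distrib]
    refine Finset.prod_le_prod' fun p hp => ?_
    have := (Nat.prime_of_mem_primeFactors hp).two_le
    omega
  have h3 : 0 < ∏ p ∈ s.primeFactors, p :=
    Finset.prod_pos fun p hp => (Nat.prime_of_mem_primeFactors hp).pos
  refine Nat.le_of_mul_le_mul_right ?_ h3
  calc s * ∏ p ∈ s.primeFactors, p ≤
      s * (2 ^ s.primeFactors.card * ∏ p ∈ s.primeFactors, (p - 1)) := Nat.mul_le_mul_left _ h2
    _ = 2 ^ s.primeFactors.card * (s * ∏ p ∈ s.primeFactors, (p - 1)) := by ring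
    _ = 2 ^ s.primeFactors.card * s.totient * ∏ p ∈ s.primeFactors, p := by
        rw [← h1]
        ring

lemma fin_ht4 (s : ℕ) (R : ℝ) : {x : Fin 3 → ℤ | Adm x ∧ x 0 = (s : ℤ) ∧
    (pd (x 1 * x 2).natAbs.primeFactors : ℝ) ≤ R ∧ (ht x : ℝ) ≤ R}.Finite := by
  refine ((Fintype.piFinset fun _ : Fin 3 =>
    Finset.Icc (-(⌊R⌋₊ : ℤ)) (⌊R⌋₊ : ℤ)).finite_toSet).subset ?_
  intro x hx
  obtain ⟨-, -, -, h⟩ := hx
  have h1 : ht x ≤ ⌊R⌋₊ := Nat.le_floor h
  rw [Finset.mem_coe, Fintype.mem_piFinset]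
  intro i
  rw [Finset.mem_Icc]
  unfold ht at h1
  have hi : (x i).natAbs ≤ ⌊R⌋₊ := by
    fin_cases i
    · show (x 0).natAbs ≤ _
      omega
    · show (x 1).natAbs ≤ _
      omega
    · show (x 2).natAbs ≤ _
      omega
  omega

theorem pf_LOW4 (hPOW4 : T_POW4) : T_LOW4 := by
  classical
  intro ε hε
  obtain ⟨C, hC1, hC⟩ := hPOW4 2 ε (by norm_num) hε
  have hC0 : 0 < C := by linarith
  refine ⟨1 / (8 * C), by positivity, ?_⟩
  intro s R hs hR
  have hs1 : 1 ≤ s := Nat.one_le_iff_ne_zero.2 hs.ne_zero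
  have hs1' : (1 : ℝ) ≤ s := by exact_mod_cast hs1
  have hs0 : (0 : ℝ) < s := by linarith
  have hR4 : 4 ≤ R := by nlinarith
  have hR0 : 0 ≤ R := by linarith
  set Z : ℝ := R ^ (1 / 2 : ℝ) with hZ
  have hZ2 : Z ^ 2 = R := by
    rw [hZ, ← Real.rpow_natCast, ← Real.rpow_mul hR0]
    norm_num
  have hZ0 : 0 ≤ Z := Real.rpow_nonneg hR0 _
  have hZs : 2 * (s : ℝ) ≤ Z := by
    by_contra hc
    push Not at hc
    nlinarith
  set N : ℕ := ⌊Z / 2⌋₊ with hN
  have hNle : (N : ℝ) ≤ Z / 2 := Nat.floor_le (by positivity)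
  have hNlt : Z / 2 < (N : ℝ) + 1 := Nat.lt_floor_add_one _
  have hsN : s ≤ N := Nat.le_floor (by linarith)
  have hsN' : (s : ℝ) ≤ N := by exact_mod_cast hsN
  -- the count
  have hcount : (1 / (8 * C)) * (s : ℝ) ^ (-ε) * Z ≤
      (((Finset.Ico 1 (1 + s * (N / s))).filter (s.Coprime)).card : ℝ) := by
    rw [count_blocks]
    push_cast
    have e1 : (N : ℝ) / (2 * s) ≤ ((N / s : ℕ) : ℝ) := by
      have h1 : N < s * (N / s + 1) := by
        have := Nat.lt_mul_div_succ N (show 0 < s by omega)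
        simpa using this
      have h2 : 1 ≤ N / s := (Nat.one_le_div_iff (by omega)).2 hsN
      have h1' : (N : ℝ) < s * (((N / s : ℕ) : ℝ) + 1) := by exact_mod_cast h1
      have h2' : (1 : ℝ) ≤ ((N / s : ℕ) : ℝ) := by exact_mod_cast h2
      rw [div_le_iff₀ (by positivity)]
      nlinarith
    have e2 : (s : ℝ) ≤ 2 ^ s.primeFactors.card * (s.totient : ℝ) := by
      exact_mod_cast le_totient s
    have e3 := hC s hs1
    have e4 : (s : ℝ) ≤ C * (s : ℝ) ^ ε * (s.totient : ℝ) :=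
      e2.trans (mul_le_mul_of_nonneg_right e3 (Nat.cast_nonneg _))
    have hpos : 0 < (s : ℝ) ^ ε := Real.rpow_pos_of_pos hs0 _
    have e5 : (s : ℝ) / (C * (s : ℝ) ^ ε) ≤ (s.totient : ℝ) := by
      rw [div_le_iff₀ (by positivity)]
      linarith
    have hN4 : Z / 4 ≤ (N : ℝ) := by linarith
    calc (1 / (8 * C)) * (s : ℝ) ^ (-ε) * Z = (Z / 4 / (2 * s)) * ((s : ℝ) / (C * (s : ℝ) ^ ε)) := by
          rw [Real.rpow_neg hs0.le]
          field_simp
          ring
      _ ≤ ((N : ℝ) / (2 * s)) * ((s : ℝ) / (C * (s : ℝ) ^ ε)) := by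
          refine mul_le_mul_of_nonneg_right ?_ (by positivity)
          exact div_le_div_of_nonneg_right hN4 (by positivity)
      _ ≤ ((N / s : ℕ) : ℝ) * (s.totient : ℝ) :=
          mul_le_mul e1 e5 (by positivity) (Nat.cast_nonneg _)
  refine hcount.trans ?_
  have hinj : Function.Injective fun b : ℕ => Pool.Agent.H89.PS.tr (s, b) := by
    intro b b' h
    have := Pool.Agent.H89.PS.tr_inj h
    exact (Prod.ext_iff.1 this).2
  have hsub : (((Finset.Ico 1 (1 + s * (N / s))).filter (s.Coprime)).image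
      (fun b : ℕ => Pool.Agent.H89.PS.tr (s, b)) : Set (Fin 3 → ℤ)) ⊆
      {x : Fin 3 → ℤ | Adm x ∧ x 0 = (s : ℤ) ∧
        (pd (x 1 * x 2).natAbs.primeFactors : ℝ) ≤ R ∧ (ht x : ℝ) ≤ R} := by
    intro x hx
    rw [Finset.mem_coe, Finset.mem_image] at hx
    obtain ⟨b, hb, rfl⟩ := hx
    rw [Finset.mem_filter, Finset.mem_Ico] at hb
    obtain ⟨⟨hb1, hb2⟩, hbc⟩ := hb
    have hbN : b ≤ N := by
      have := Nat.mul_div_le N s
      omega
    have hbN' : (b : ℝ) ≤ N := by exact_mod_cast hbN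
    refine ⟨Pool.Agent.H89.PS.tr_adm hs1 hb1 hbc, rfl, ?_, ?_⟩
    · have e : (Pool.Agent.H89.PS.tr (s, b) 1 * Pool.Agent.H89.PS.tr (s, b) 2).natAbs =
          b * (s + b) := by
        show ((b : ℤ) * -((s : ℤ) + b)).natAbs = _
        rw [mul_neg, Int.natAbs_neg]
        have : (b : ℤ) * ((s : ℤ) + b) = ((b * (s + b) : ℕ) : ℤ) := by
          push_cast
          ring
        rw [this, Int.natAbs_natCast]
      rw [e]
      have h3 : pd (b * (s + b)).primeFactors ≤ b * (s + b) := by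
        refine Nat.le_of_dvd (by positivity) (Nat.prod_primeFactors_dvd _)
      have h4 : ((pd (b * (s + b)).primeFactors : ℕ) : ℝ) ≤ (b : ℝ) * (s + b) := by
        exact_mod_cast h3
      refine h4.trans ?_
      have h5 : (b : ℝ) * (s + b) ≤ (Z / 2) * (Z / 2 + Z / 2) :=
        mul_le_mul (by linarith) (by linarith) (by positivity) (by positivity)
      nlinarith
    · have h1 := Pool.Agent.H89.PS.tr_ht (q := (s, b)) (Y := N) hsN hbN
      have h2 : ((ht (Pool.Agent.H89.PS.tr (s, b)) : ℕ) : ℝ) ≤ 2 * (N : ℝ) := by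
        exact_mod_cast h1
      have h3 : Z ≤ R := by
        rw [← hZ2]
        nlinarith
      linarith
  have h1 := Set.ncard_le_ncard hsub (fin_ht4 s R)
  rw [Set.ncard_coe_finset, Finset.card_image_of_injective _ hinj] at h1
  exact_mod_cast h1

end Pool.Agent.H89.RD
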